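import Pool.Agent.V11330.SL.Limit

/-!
Asymptotic learning in a deterministic observation network with bounded private signals.

The setting is that of sequential Bayesian learning.  The state `θ` is uniform on two points,
agent `n` gets a private signal `s n` (i.i.d. given the state, with law `F t` in state `t`), sees
the actions of the agents in the fixed set `N n` of predecessors and takes the action with the
larger posterior probability.  Signals take two values.
-/

open MeasureTheory ProbabilityTheory Filter Topology

namespace Pool.Agent.Results.MP_a79c01_pr.BoundedLearning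

universe u

/-- A tie-breaking rule: the action taken by an indifferent agent, as a function of her index,
her neighbourhood, her private signal and the set of her neighbours who chose `true`. -/
abbrev TieRule := ℕ → Finset ℕ → Bool → Finset ℕ → Bool

section Defs

variable {Ω : Type u}

/-- What agent `n` knows in the outcome `ω`: the outcomes with the same private signal of agent
`n` and the same actions of all the agents in `N n`. -/
def info (N : ℕ → Finset ℕ) (s a : ℕ → Ω → Bool) (n : ℕ) (ω : Ω) : Set Ω :=
  {ω' | s n ω' = s n ω ∧ ∀ m ∈ N n, a m ω' = a m ω}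

/-- The posterior probability which agent `n` gives to the state `c` in the outcome `ω`. -/
noncomputable def posterior [MeasurableSpace Ω] (N : ℕ → Finset ℕ) (P : Measure Ω)
    (θ : Ω → Bool) (s a : ℕ → Ω → Bool) (n : ℕ) (ω : Ω) (c : Bool) : ℝ :=
  (ProbabilityTheory.cond P (info N s a n ω)).real (θ ⁻¹' {c})

/-- The sequential learning model with network `N`, signal laws `F` and tie-breaking rule `τ`. -/
structure IsModel [MeasurableSpace Ω] (F : Bool → Measure Bool) (N : ℕ → Finset ℕ)
    (τ : TieRule) (P : Measure Ω) (θ : Ω → Bool) (s a : ℕ → Ω → Bool) : Prop where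
  prob : IsProbabilityMeasure P
  measurable_state : Measurable θ
  measurable_signal : ∀ n, Measurable (s n)
  measurable_action : ∀ n, Measurable (a n)
  /-- the state is uniform -/
  prior : ∀ t, P (θ ⁻¹' {t}) = 1 / 2
  /-- given the state `t`, the private signals are i.i.d. with law `F t` -/
  signals : ∀ t, (ProbabilityTheory.cond P (θ ⁻¹' {t})).map (fun ω n => s n ω)
    = Measure.infinitePi fun _ : ℕ => F t
  /-- every agent maximises her posterior expected payoff, ties are broken by `τ` -/
  rational : ∀ n ω, a n ω =
    if posterior N P θ s a n ω false < posterior N P θ s a n ω true then true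
    else if posterior N P θ s a n ω true < posterior N P θ s a n ω false then false
    else τ n (N n) (s n ω) ((N n).filter fun m => a m ω = true)

end Defs

/-- The private belief in the state `true` after the signal `b`. -/
noncomputable def privateBelief (F : Bool → Measure Bool) (b : Bool) : ℝ :=
  (F true).real {b} / ((F true).real {b} + (F false).real {b})

open Pool.SL

section Link

variable {Ω : Type u} [MeasurableSpace Ω] {F : Bool → Measure Bool}
  [hF : ∀ t, IsProbabilityMeasure (F t)] {Q : Par} {e : Bool → Bool}

lemma mu_eq (hw : ∀ t b, Q.w t b = (F t).real {e b}) (he : ∀ b, e (e b) = b) (t : Bool) :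
    (F t).map e = mu Q t := by
  rw [Measure.ext_iff_singleton]
  intro b
  rw [mu_singleton, Measure.map_apply (measurable_of_countable e) (measurableSet_singleton _), hw]
  have : e ⁻¹' {b} = {e b} := by
    ext x
    simp only [Set.mem_preimage, Set.mem_singleton_iff]
    constructor
    · rintro rfl; exact (he x).symm
    · rintro rfl; exact he b
  rw [this, Measure.real, ENNReal.ofReal_toReal (measure_ne_top _ _)]

lemma law_eq (hw : ∀ t b, Q.w t b = (F t).real {e b}) (he : ∀ b, e (e b) = b) (t : Bool) :
    (Measure.infinitePi fun _ : ℕ => F t).map (fun (x : Sig) k => e (x k)) = P Q t := by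
  have h := Measure.infinitePi_map_pi (fun _ : ℕ => F t) (f := fun _ => e)
    (fun _ => measurable_of_countable e)
  rw [h]
  unfold P
  congr 1
  funext _
  exact mu_eq hw he t

lemma joint (hw : ∀ t b, Q.w t b = (F t).real {e b}) (he : ∀ b, e (e b) = b)
    {μ : Measure Ω} {θ : Ω → Bool} {s : ℕ → Ω → Bool}
    (hθ : Measurable θ) (hs : ∀ n, Measurable (s n)) (hprior : ∀ t, μ (θ ⁻¹' {t}) = 1 / 2)
    (hsig : ∀ t, (ProbabilityTheory.cond μ (θ ⁻¹' {t})).map (fun ω n => s n ω)
      = Measure.infinitePi fun _ : ℕ => F t) (t : Bool) {E : Set Sig} (hE : MeasurableSet E) :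
    μ ((θ ⁻¹' {t}) ∩ (fun ω k => e (s k ω)) ⁻¹' E) = 1 / 2 * P Q t E := by
  have hA : MeasurableSet (θ ⁻¹' {t}) := hθ (measurableSet_singleton _)
  have h1 : Measurable fun (ω : Ω) (n : ℕ) => s n ω := measurable_pi_lambda _ hs
  have h2 : Measurable fun (x : Sig) (k : ℕ) => e (x k) :=
    measurable_pi_lambda _ fun k => (measurable_of_countable e).comp (measurable_pi_apply k)
  have h3 : P Q t E = ProbabilityTheory.cond μ (θ ⁻¹' {t}) ((fun ω k => e (s k ω)) ⁻¹' E) := by
    rw [← law_eq hw he t, ← hsig t, Measure.map_apply h2 hE, Measure.map_apply h1 (h2 hE)]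
    rfl
  rw [h3, cond_apply hA, hprior, ← mul_assoc]
  rw [ENNReal.mul_inv_cancel (by simp) (by simp), one_mul]

lemma joint_real (hw : ∀ t b, Q.w t b = (F t).real {e b}) (he : ∀ b, e (e b) = b)
    {μ : Measure Ω} {θ : Ω → Bool} {s : ℕ → Ω → Bool}
    (hθ : Measurable θ) (hs : ∀ n, Measurable (s n)) (hprior : ∀ t, μ (θ ⁻¹' {t}) = 1 / 2)
    (hsig : ∀ t, (ProbabilityTheory.cond μ (θ ⁻¹' {t})).map (fun ω n => s n ω)
      = Measure.infinitePi fun _ : ℕ => F t) (t : Bool) {E : Set Sig} (hE : MeasurableSet E) :
    μ.real ((θ ⁻¹' {t}) ∩ (fun ω k => e (s k ω)) ⁻¹' E) = 1 / 2 * (P Q t).real E := by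
  unfold Measure.real
  rw [joint hw he hθ hs hprior hsig t hE, ENNReal.toReal_mul]
  norm_num

lemma compare (hw : ∀ t b, Q.w t b = (F t).real {e b}) (he : ∀ b, e (e b) = b)
    {μ : Measure Ω} [IsProbabilityMeasure μ] {θ : Ω → Bool} {s a : ℕ → Ω → Bool}
    (hθ : Measurable θ) (hs : ∀ n, Measurable (s n)) (ha : ∀ n, Measurable (a n))
    (hprior : ∀ t, μ (θ ⁻¹' {t}) = 1 / 2)
    (hsig : ∀ t, (ProbabilityTheory.cond μ (θ ⁻¹' {t})).map (fun ω n => s n ω)
      = Measure.infinitePi fun _ : ℕ => F t) (τ τ' : TieRule)
    (hτ : ∀ n A b U, τ' n A b U = τ n A (e b) U)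
    {N : ℕ → Finset ℕ} (hN : ∀ i, N i ⊆ Finset.range i) (n : ℕ)
    (hact : ∀ m < n, ∀ ω, a m ω = act Q τ' N m (fun k => e (s k ω))) (ω : Ω) :
    act Q τ' N n (fun k => e (s k ω)) =
      if posterior N μ θ s a n ω false < posterior N μ θ s a n ω true then true
      else if posterior N μ θ s a n ω true < posterior N μ θ s a n ω false then false
      else τ n (N n) (s n ω) ((N n).filter fun m => a m ω = true) := by
  classical
  set x : Sig := fun k => e (s k ω) with hx
  have hinfo : info N s a n ω = (fun ω' k => e (s k ω')) ⁻¹'
      (view (act Q τ' N) (N n) x ∩ {y | ∀ k ∈ ({n} : Finset ℕ), y k = x k}) := by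
    ext ω'
    constructor
    · rintro ⟨h1, h2⟩
      refine ⟨fun m hm => ?_, fun k hk => ?_⟩
      · have hm' := Finset.mem_range.1 (hN n hm)
        rw [← hact m hm' ω', h2 m hm, hact m hm' ω]
      · rw [Finset.mem_singleton.1 hk]
        show e (s n ω') = e (s n ω)
        rw [h1]
    · rintro ⟨h1, h2⟩
      refine ⟨?_, fun m hm => ?_⟩
      · have h3 : e (s n ω') = e (s n ω) := h2 n (by simp)
        rw [← he (s n ω'), h3, he]
      · have hm' := Finset.mem_range.1 (hN n hm)
        rw [hact m hm' ω', hact m hm' ω]
        exact h1 m hm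
  have hmeasI : MeasurableSet (info N s a n ω) := by
    have h1 : info N s a n ω = {ω' | s n ω' = s n ω} ∩ ⋂ m ∈ N n, {ω' | a m ω' = a m ω} := by
      ext ω'; simp [info]
    rw [h1]
    refine ((hs n) (measurableSet_singleton (s n ω))).inter ?_
    exact Finset.measurableSet_biInter _ fun m _ => (ha m) (measurableSet_singleton (a m ω))
  let S : Net := ⟨n, N, hN⟩
  have hE : MeasurableSet (view (act Q τ' N) (N n) x ∩ {y : Sig | ∀ k ∈ ({n} : Finset ℕ), y k = x k}) :=
    (dep_view Q τ' S (hN n) x).measurable.inter (dep_cyl {n} x).measurable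
  have hjoint : ∀ t, μ.real (info N s a n ω ∩ θ ⁻¹' {t})
      = 1 / 2 * (lik Q (act Q τ' N) (N n) x t * Q.w t (x n)) := by
    intro t
    rw [Set.inter_comm, hinfo, joint_real hw he hθ hs hprior hsig t hE]
    have h2 := P_world (Q := Q) (τ := τ') S (B := N n) (F := {n}) (n := n) (hN n) (by simp) x x t
    rw [Finset.prod_singleton] at h2
    rw [← h2]
  have hpost : ∀ t, posterior N μ θ s a n ω t
      = (μ.real (info N s a n ω))⁻¹ * (1 / 2 * (lik Q (act Q τ' N) (N n) x t * Q.w t (x n))) := by
    intro t
    rw [← hjoint]
    unfold posterior Measure.real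
    rw [cond_apply hmeasI, ENNReal.toReal_mul, ENNReal.toReal_inv]
  have hpos : 0 < (μ.real (info N s a n ω))⁻¹ := by
    rw [inv_pos]
    have h1 : 0 < μ.real (info N s a n ω ∩ θ ⁻¹' {true}) := by
      rw [hjoint]
      have := lik_pos Q τ' S (N n) x true
      have := Q.pos true (x n)
      positivity
    exact lt_of_lt_of_le h1 (measureReal_mono Set.inter_subset_left (measure_ne_top _ _))
  have hcmp : ∀ t t', posterior N μ θ s a n ω t < posterior N μ θ s a n ω t' ↔
      lik Q (act Q τ' N) (N n) x t * Q.w t (x n) < lik Q (act Q τ' N) (N n) x t' * Q.w t' (x n) := by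
    intro t t'
    rw [hpost, hpost, mul_lt_mul_iff_right₀ hpos, mul_lt_mul_iff_right₀ (by norm_num)]
  rw [act_eq Q τ' (hN n)]
  unfold dec
  simp only [hcmp]
  have h1 : τ' n (N n) (x n) ((N n).filter fun j => act Q τ' N j x = true)
      = τ n (N n) (s n ω) ((N n).filter fun m => a m ω = true) := by
    rw [hτ]
    have h2 : e (x n) = s n ω := he _
    have h3 : ((N n).filter fun j => act Q τ' N j x = true)
        = ((N n).filter fun m => a m ω = true) :=
      Finset.filter_congr fun m hm => by rw [hact m (Finset.mem_range.1 (hN n hm)) ω]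
    rw [h2, h3]
  rw [h1]

lemma IsModel.act_eq' (hw : ∀ t b, Q.w t b = (F t).real {e b}) (he : ∀ b, e (e b) = b)
    {μ : Measure Ω} {θ : Ω → Bool} {s a : ℕ → Ω → Bool} {τ τ' : TieRule}
    (hτ : ∀ n A b U, τ' n A b U = τ n A (e b) U)
    {N : ℕ → Finset ℕ} (hN : ∀ i, N i ⊆ Finset.range i) (h : IsModel F N τ μ θ s a)
    (n : ℕ) (ω : Ω) : a n ω = act Q τ' N n (fun k => e (s k ω)) := by
  have := h.prob
  induction n using Nat.strong_induction_on generalizing ω with
  | _ n ih =>
    rw [compare hw he h.measurable_state h.measurable_signal h.measurable_action h.prior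
      h.signals τ τ' hτ hN n ih ω]
    exact h.rational n ω

lemma IsModel.learning (hw : ∀ t b, Q.w t b = (F t).real {e b}) (he : ∀ b, e (e b) = b)
    {μ : Measure Ω} {θ : Ω → Bool} {s a : ℕ → Ω → Bool} {τ τ' : TieRule}
    (hτ : ∀ n A b U, τ' n A b U = τ n A (e b) U)
    (h : IsModel F (limN Q τ') τ μ θ s a) :
    Tendsto (fun n => μ {ω | a n ω = θ ω}) atTop (𝓝 1) := by
  have := h.prob
  have hN := limN_sub Q τ'
  have hact := h.act_eq' hw he hτ hN
  have hdep : ∀ n t, MeasurableSet {x : Sig | act Q τ' (limN Q τ') n x = t} := by
    intro n t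
    have h1 : Dep (Finset.range (n + 1)) {x : Sig | act Q τ' (limN Q τ') n x = t} := by
      intro x y hxy
      have := act_dep Q τ' (N := limN Q τ') (n := n) (fun i _ => hN i) (s := x) (s' := y)
        fun i hi => hxy i (Finset.mem_range.2 (by omega))
      simp only [Set.mem_ofPred_eq, this]
    exact h1.measurable
  have hval : ∀ n, μ {ω | a n ω = θ ω} = ENNReal.ofReal (1 - 1 / 2 *
      ((P Q true).real {x | act Q τ' (limN Q τ') n x = false}
        + (P Q false).real {x | act Q τ' (limN Q τ') n x = true})) := by
    intro n
    have h1 : {ω | a n ω = θ ω}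
        = ((θ ⁻¹' {true}) ∩ (fun ω k => e (s k ω)) ⁻¹' {x | act Q τ' (limN Q τ') n x = true})
        ∪ ((θ ⁻¹' {false}) ∩ (fun ω k => e (s k ω)) ⁻¹' {x | act Q τ' (limN Q τ') n x = false}) := by
      ext ω
      simp only [Set.mem_ofPred_eq, Set.mem_union, Set.mem_inter_iff, Set.mem_preimage,
        Set.mem_singleton_iff]
      rw [← hact n ω]
      cases θ ω <;> simp
    have h2 : ∀ t, (P Q t).real {x | act Q τ' (limN Q τ') n x = t}
        = 1 - (P Q t).real {x | act Q τ' (limN Q τ') n x = !t} := by
      intro t
      have h3 : {x : Sig | act Q τ' (limN Q τ') n x = t}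
          = {x | act Q τ' (limN Q τ') n x = !t}ᶜ := by
        ext x
        simp only [Set.mem_ofPred_eq, Set.mem_compl_iff]
        cases act Q τ' (limN Q τ') n x <;> cases t <;> simp
      rw [h3, measureReal_compl (hdep n _), probReal_univ]
    have h4 : μ.real {ω | a n ω = θ ω} = 1 - 1 / 2 *
      ((P Q true).real {x | act Q τ' (limN Q τ') n x = false}
        + (P Q false).real {x | act Q τ' (limN Q τ') n x = true}) := by
      have h2t := h2 true
      have h2f := h2 false
      simp only [Bool.not_true, Bool.not_false] at h2t h2f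
      rw [h1, measureReal_union, joint_real hw he h.measurable_state h.measurable_signal h.prior
        h.signals true (hdep n true), joint_real hw he h.measurable_state h.measurable_signal
        h.prior h.signals false (hdep n false), h2t, h2f]
      · ring
      · refine Set.disjoint_left.2 fun ω h5 h6 => ?_
        have h7 : θ ω = true := h5.1
        have h8 : θ ω = false := h6.1
        rw [h7] at h8
        exact Bool.noConfusion h8
      · refine (h.measurable_state (measurableSet_singleton _)).inter ?_
        refine (measurable_pi_lambda _ fun k =>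
          (measurable_of_countable e).comp (h.measurable_signal k)) (hdep n false)
    rw [← h4, Measure.real, ENNReal.ofReal_toReal (measure_ne_top _ _)]
  have h5 := (error_tendsto Q τ').const_mul (1 / 2 : ℝ)
  have h6 := (ENNReal.tendsto_ofReal (h5.const_sub (1 : ℝ)))
  simp only [mul_zero, sub_zero, ENNReal.ofReal_one] at h6
  exact h6.congr fun n => (hval n).symm

/-- the canonical measure on states and signals -/
noncomputable def canon (F : Bool → Measure Bool) : Measure (Bool × Sig) :=
  (2⁻¹ : ENNReal) • (Measure.infinitePi fun _ : ℕ => F true).map (Prod.mk true)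
    + (2⁻¹ : ENNReal) • (Measure.infinitePi fun _ : ℕ => F false).map (Prod.mk false)

omit hF in
lemma canon_apply [hF : ∀ t, IsProbabilityMeasure (F t)] (t : Bool) {E : Set Sig}
    (hE : MeasurableSet E) :
    canon F ((Prod.fst ⁻¹' {t}) ∩ Prod.snd ⁻¹' E)
      = 2⁻¹ * (Measure.infinitePi fun _ : ℕ => F t) E := by
  unfold canon
  have hm : MeasurableSet ((Prod.fst ⁻¹' {t} : Set (Bool × Sig)) ∩ Prod.snd ⁻¹' E) :=
    (measurable_fst (measurableSet_singleton t)).inter (measurable_snd hE)
  rw [Measure.add_apply, Measure.smul_apply, Measure.smul_apply,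
    Measure.map_apply measurable_prodMk_left hm, Measure.map_apply measurable_prodMk_left hm]
  have h1 : ∀ b, Prod.mk b ⁻¹' ((Prod.fst ⁻¹' {t} : Set (Bool × Sig)) ∩ Prod.snd ⁻¹' E)
      = if b = t then E else ∅ := by
    intro b
    ext x
    by_cases hb : b = t <;> simp [hb]
  rw [h1, h1]
  cases t <;> simp

lemma exists_model (hw : ∀ t b, Q.w t b = (F t).real {e b}) (he : ∀ b, e (e b) = b)
    {τ τ' : TieRule} (hτ : ∀ n A b U, τ' n A b U = τ n A (e b) U)
    {N : ℕ → Finset ℕ} (hN : ∀ i, N i ⊆ Finset.range i) :
    ∃ (Ω : Type) (_ : MeasurableSpace Ω) (μ : Measure Ω) (θ : Ω → Bool) (s a : ℕ → Ω → Bool),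
      IsModel F N τ μ θ s a := by
  have hprior : ∀ t, canon F (Prod.fst ⁻¹' {t}) = 1 / 2 := by
    intro t
    have := canon_apply (F := F) t MeasurableSet.univ
    simpa using this
  have hprob : IsProbabilityMeasure (canon F) := by
    constructor
    have h1 : (Set.univ : Set (Bool × Sig)) = Prod.fst ⁻¹' {true} ∪ Prod.fst ⁻¹' {false} := by
      ext x
      cases h : x.1 <;> simp [h]
    rw [h1, measure_union, hprior, hprior]
    · rw [ENNReal.add_halves]
    · refine Set.disjoint_left.2 fun x h5 h6 => ?_
      have h7 : x.1 = true := h5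
      have h8 : x.1 = false := h6
      rw [h7] at h8
      exact Bool.noConfusion h8
    · exact measurable_fst (measurableSet_singleton _)
  have hsig : ∀ t, (ProbabilityTheory.cond (canon F) (Prod.fst ⁻¹' {t})).map
      (fun (x : Bool × Sig) n => x.2 n) = Measure.infinitePi fun _ : ℕ => F t := by
    intro t
    ext E hE
    rw [Measure.map_apply measurable_snd hE,
      cond_apply (measurable_fst (measurableSet_singleton _)), hprior]
    have h2 : (fun (x : Bool × Sig) n => x.2 n) ⁻¹' E = Prod.snd ⁻¹' E := rfl
    rw [h2, canon_apply t hE, ← mul_assoc]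
    rw [show (1 / 2 : ENNReal)⁻¹ * 2⁻¹ = 1 by
      rw [one_div, inv_inv]; exact ENNReal.mul_inv_cancel (by simp) (by simp), one_mul]
  have hmeas : ∀ n, Measurable fun x : Bool × Sig => x.2 n := fun n =>
    (measurable_pi_apply n).comp measurable_snd
  have hmact : ∀ n, Measurable fun x : Bool × Sig => act Q τ' N n (fun k => e (x.2 k)) := by
    intro n
    refine measurable_to_bool ?_
    have h1 : Dep (Finset.range (n + 1)) {x : Sig | act Q τ' N n x = true} := by
      intro x y hxy
      have := act_dep Q τ' (N := N) (n := n) (fun i _ => hN i) (s := x) (s' := y)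
        fun i hi => hxy i (Finset.mem_range.2 (by omega))
      simp only [Set.mem_ofPred_eq, this]
    have h2 : Measurable fun (x : Bool × Sig) (k : ℕ) => e (x.2 k) :=
      measurable_pi_lambda _ fun k => (measurable_of_countable e).comp (hmeas k)
    exact h2 h1.measurable
  refine ⟨Bool × Sig, inferInstance, canon F, Prod.fst, fun n x => x.2 n,
    fun n x => act Q τ' N n (fun k => e (x.2 k)), hprob, measurable_fst, hmeas, hmact, hprior,
    hsig, fun n ω => ?_⟩
  exact compare hw he measurable_fst hmeas hmact hprior hsig τ τ' hτ hN n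
    (fun m _ ω => rfl) ω

end Link

/-- **Learning with bounded signals in a deterministic network.**  Let `F true`, `F false` be any
two distinct, mutually absolutely continuous laws on a two-point signal space (the private beliefs
are then bounded away from `0` and `1`), and let `τ` be any tie-breaking rule.  There is a
deterministic network `N` for which asymptotic learning holds: the model exists, and in every
model with this network the probability that agent `n` takes the correct action tends to one. -/
theorem result (F : Bool → Measure Bool) [∀ t, IsProbabilityMeasure (F t)]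
    (h01 : F false ≪ F true) (h10 : F true ≪ F false) (hne : F true ≠ F false) (τ : TieRule) :
    (∃ β : ℝ, 0 < β ∧ ∀ b, privateBelief F b ∈ Set.Icc β (1 - β)) ∧
    ∃ N : ℕ → Finset ℕ, (∀ n, N n ⊆ Finset.range n) ∧
      (∃ (Ω : Type) (_ : MeasurableSpace Ω) (P : Measure Ω) (θ : Ω → Bool)
        (s a : ℕ → Ω → Bool), IsModel F N τ P θ s a) ∧
      ∀ (Ω : Type u) [MeasurableSpace Ω] (P : Measure Ω) (θ : Ω → Bool) (s a : ℕ → Ω → Bool),
        IsModel F N τ P θ s a → Tendsto (fun n => P {ω | a n ω = θ ω}) atTop (𝓝 1) := by
  -- the masses of the two signals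
  have hsum : ∀ t, (F t).real {true} + (F t).real {false} = 1 := by
    intro t
    rw [← measureReal_union (by simp) (measurableSet_singleton _)]
    have : ({true} ∪ {false} : Set Bool) = Set.univ := by
      ext b; cases b <;> simp
    rw [this, probReal_univ]
  have hext : (∀ b, (F true).real {b} = (F false).real {b}) → False := by
    intro h
    refine hne ((Measure.ext_iff_singleton).2 fun b => ?_)
    have := h b
    unfold Measure.real at this
    rwa [ENNReal.toReal_eq_toReal_iff' (measure_ne_top _ _) (measure_ne_top _ _)] at this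
  have hzero : ∀ b, (F true).real {b} = 0 ↔ (F false).real {b} = 0 := by
    intro b
    rw [measureReal_eq_zero_iff, measureReal_eq_zero_iff]
    exact ⟨fun h => h01 h, fun h => h10 h⟩
  have hpos' : ∀ b, 0 < (F true).real {b} := by
    intro b
    by_contra hcon
    have h1 : (F true).real {b} = 0 := le_antisymm (not_lt.1 hcon) measureReal_nonneg
    have h2 := (hzero b).1 h1
    have h3 := hsum true
    have h4 := hsum false
    refine hext fun b' => ?_
    cases b <;> cases b' <;> linarith
  have hpos : ∀ t b, 0 < (F t).real {b} := by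
    intro t b
    cases t
    · refine lt_of_le_of_ne measureReal_nonneg fun h => ?_
      exact (hpos' b).ne' ((hzero b).2 h.symm)
    · exact hpos' b
  refine ⟨?_, ?_⟩
  · -- boundedness of the private beliefs
    have hb : ∀ b, 0 < privateBelief F b ∧ privateBelief F b < 1 := by
      intro b
      have h1 := hpos true b
      have h2 := hpos false b
      unfold privateBelief
      exact ⟨by positivity, by rw [div_lt_one (by positivity)]; linarith⟩
    refine ⟨min (min (privateBelief F true) (privateBelief F false))
      (min (1 - privateBelief F true) (1 - privateBelief F false)), ?_, fun b => ?_⟩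
    · have h1 := hb true
      have h2 := hb false
      refine lt_min (lt_min h1.1 h2.1) (lt_min ?_ ?_) <;> linarith
    · constructor
      · cases b
        · exact (min_le_left _ _).trans (min_le_right _ _)
        · exact (min_le_left _ _).trans (min_le_left _ _)
      · have h3 : min (min (privateBelief F true) (privateBelief F false))
            (min (1 - privateBelief F true) (1 - privateBelief F false))
            ≤ 1 - privateBelief F b := by
          cases b
          · exact (min_le_right _ _).trans (min_le_right _ _)
          · exact (min_le_right _ _).trans (min_le_left _ _)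
        linarith
  · -- the network
    have main : ∀ (e : Bool → Bool) (_ : ∀ b, e (e b) = b) (_ : ∀ b, e (!b) = !(e b))
        (_ : (F false).real {e true} < (F true).real {e true}),
        ∃ N : ℕ → Finset ℕ, (∀ n, N n ⊆ Finset.range n) ∧
        (∃ (Ω : Type) (_ : MeasurableSpace Ω) (P : Measure Ω) (θ : Ω → Bool)
          (s a : ℕ → Ω → Bool), IsModel F N τ P θ s a) ∧
        ∀ (Ω : Type u) [MeasurableSpace Ω] (P : Measure Ω) (θ : Ω → Bool) (s a : ℕ → Ω → Bool),
          IsModel F N τ P θ s a → Tendsto (fun n => P {ω | a n ω = θ ω}) atTop (𝓝 1) := by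
      intro e he hnot hlt
      have hs : ∀ t, (F t).real {e true} + (F t).real {e false} = 1 := by
        intro t
        have h1 := hsum t
        have h2 := hnot true
        cases h3 : e true
        · rw [h3] at h2
          simp only [Bool.not_true, Bool.not_false] at h2
          rw [h2]; linarith
        · rw [h3] at h2
          simp only [Bool.not_true] at h2
          rw [h2]; linarith
      let Q : Par :=
        { w := fun t b => (F t).real {e b}
          pos := fun t b => hpos t (e b)
          sum := hs
          lt := by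
            intro b
            cases b
            · simp only [Bool.not_false]
              have h1 := hs true
              have h2 := hs false
              linarith
            · simp only [Bool.not_true]
              exact hlt }
      have hτ : ∀ n A b U, (fun n A b U => τ n A (e b) U : TieRule) n A b U = τ n A (e b) U :=
        fun _ _ _ _ => rfl
      refine ⟨limN Q (fun n A b U => τ n A (e b) U), limN_sub Q _, ?_, ?_⟩
      · exact exists_model (Q := Q) (e := e) (fun _ _ => rfl) he hτ (limN_sub Q _)
      · intro Ω _ P θ s a h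
        exact h.learning (Q := Q) (e := e) (fun _ _ => rfl) he hτ
    rcases lt_trichotomy ((F false).real {true}) ((F true).real {true}) with h | h | h
    · exact main id (fun _ => rfl) (fun _ => rfl) h
    · exfalso
      have h3 := hsum true
      have h4 := hsum false
      refine hext fun b => ?_
      cases b <;> linarith
    · refine main (fun b => !b) (fun b => Bool.not_not b) (fun _ => rfl) ?_
      show (F false).real {false} < (F true).real {false}
      have h3 := hsum true
      have h4 := hsum false
      linarith

end Pool.Agent.Results.MP_a79c01_pr.BoundedLearning
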